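import Pool.Agent.Q23.FV.M3

set_option autoImplicit false

noncomputable section

namespace Pool.Agent.Results.MP_95030e_al.ChainConditions

/-- The kernel of right multiplication by the matrix `A` on `ℓ²(G)^m`. -/
def kernel {G : Type} [Group G] {m n : ℕ} (A : Matrix (Fin m) (Fin n) (G →₀ ℂ)) :
    Set (lp (fun _ : Fin m × G => ℂ) 2) :=
  {x | ∀ (j : Fin n) (g : G),
    ∑ i : Fin m, (A i j).sum (fun h c => x (i, g * h⁻¹) * c) = 0}

open Classical in
/-- The von Neumann dimension of this kernel: the sum over `i` of one minus the squared distance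
from the basis vector at `(i, 1)` to the kernel, that is, the trace of the projection onto the
kernel. -/
def kerDim {G : Type} [Group G] {m n : ℕ} (A : Matrix (Fin m) (Fin n) (G →₀ ℂ)) : ℝ :=
  ∑ i : Fin m, (1 - (Metric.infDist
    (lp.single 2 (i, (1 : G)) (1 : ℂ) : lp (fun _ : Fin m × G => ℂ) 2) (kernel A)) ^ 2)

/-- The integral matrix `A` as a complex matrix. -/
def complexify {G : Type} {m n : ℕ} (A : Matrix (Fin m) (Fin n) (G →₀ ℤ)) :
    Matrix (Fin m) (Fin n) (G →₀ ℂ) :=
  fun i j => (A i j).mapRange (fun c : ℤ => (c : ℂ)) Int.cast_zero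

/-- `G` is torsion-free. -/
def TorsionFree (G : Type) [Group G] : Prop := ∀ g : G, ∀ n : ℕ, 0 < n → g ^ n = 1 → g = 1

/-- `C` is a class of groups which is closed under subgroups and isomorphisms (injective
homomorphisms into a member), direct products of arbitrary families, semidirect products with `ℤ`,
and free products with free groups of finite rank. -/
structure ClosedClass (C : (G : Type) → [Group G] → Prop) : Prop where
  subgroup : ∀ (G H : Type) [Group G] [Group H] (f : G →* H), Function.Injective f → C H → C G
  product : ∀ (I : Type) (G : I → Type) [∀ i, Group (G i)], (∀ i, C (G i)) → C (∀ i, G i)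
  semidirect : ∀ (G : Type) [Group G] (s : MulAut G), C G →
    C (G ⋊[zpowersHom (MulAut G) s] Multiplicative ℤ)
  freeProduct : ∀ (G : Type) [Group G] (m : ℕ), C G → C (Monoid.Coprod G (FreeGroup (Fin m)))

open Pool.Agent Pool.Agent.TH25.AD

theorem cl {C : (G : Type) → [Group G] → Prop} (h : ClosedClass C) : Q23.FV.Cl C :=
  ⟨h.subgroup, h.product, h.semidirect, h.freeProduct⟩

theorem tf_of_isLcm {G : Type} [Group G] (h : W656.VA.IsLcm G 1) : TorsionFree G := by
  intro g n hn hg
  have h1 : IsOfFinOrder g := isOfFinOrder_iff_pow_eq_one.2 ⟨n, hn, hg⟩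
  have h2 : Finite (Subgroup.zpowers g) := (finite_zpowers.2 h1).to_subtype
  have h3 := h.2.1 (Subgroup.zpowers g) h2
  rw [Nat.card_zpowers, Nat.dvd_one, orderOf_eq_one_iff] at h3
  exact h3

/-- The torsion-free groups form such a class. -/
theorem closedClass_torsionFree : ClosedClass (fun (G : Type) [Group G] => TorsionFree G) := by
  refine ⟨?_, ?_, ?_, ?_⟩
  · intro G H _ _ f hf hH g n hn hg
    apply hf
    rw [map_one]
    refine hH _ n hn ?_
    rw [← map_pow, hg, map_one]
  · intro I G _ h g n hn hg
    funext i
    exact h i _ n hn (congrFun hg i)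
  · intro G _ s hG g n hn hg
    have h1 : g.right = 1 := by
      refine tf_int _ n hn ?_
      have := congrArg SemidirectProduct.rightHom hg
      rw [map_pow, map_one] at this
      exact this
    have h2 : g = SemidirectProduct.inl g.left := by
      apply SemidirectProduct.ext
      · rfl
      · rw [h1]
        rfl
    rw [h2, ← map_pow] at hg
    have h3 : g.left ^ n = 1 := by
      apply SemidirectProduct.inl_injective (φ := zpowersHom (MulAut G) s)
      rw [hg, map_one]
    rw [h2, hG _ n hn h3, map_one]
  · intro G _ m hG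
    show TorsionFree (Monoid.Coprod G (FreeGroup (Fin m)))
    exact tf_of_isLcm (W656.VA.IsLcm.coprod (G := G) (W656.VA.isLcm_one hG) m)

/-- **Chain conditions for kernel dimensions.** Let `C` be a class of groups which is closed under
subgroups, direct products, semidirect products with `ℤ` and free products with free groups of finite
rank, for example the class of all torsion-free groups. The following are equivalent.

1. The Atiyah conjecture: the kernel dimensions of all matrices over `ℚ[G]`, `G` in `C`, are integers.
2. The kernel dimensions of all matrices over `ℂ[G]`, `G` in `C`, are integers.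
3. For every group `G` in `C`, every finite subset `T` of `G` and all `m`, `n`, the `m × n` matrices
   over `ℂ[G]` with entries supported in `T` have only finitely many kernel dimensions.
4. For every group `G` in `C`, every linear pencil `A + z B`, `z` in `ℂ`, of matrices over `ℂ[G]` has
   only finitely many kernel dimensions.
5. The descending chain condition along integral pencils: for no group `G` in `C` and no matrices
   `A`, `B` over `ℤ[G]` the sequence `k ↦ dim ker (A + k B)`, `k = 0, 1, 2, …`, is strictly
   decreasing.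
6. For no group `G` in `C` and no matrices `A`, `B` over `ℤ[G]` there are real numbers `c`,
   `β > 0` and `0 < α < 1` such that `dim ker (A + k B) = c + β α ^ k` for all `k = 0, 1, 2, …`. -/
theorem result :
    ClosedClass (fun (G : Type) [Group G] => TorsionFree G) ∧
    ∀ C : (G : Type) → [Group G] → Prop, ClosedClass C → List.TFAE [
      ∀ (G : Type) [Group G], C G → ∀ (m n : ℕ) (A : Matrix (Fin m) (Fin n) (G →₀ ℂ)),
        (∀ i j g, ∃ q : ℚ, A i j g = q) → ∃ z : ℤ, kerDim A = z,
      ∀ (G : Type) [Group G], C G → ∀ (m n : ℕ) (A : Matrix (Fin m) (Fin n) (G →₀ ℂ)),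
        ∃ z : ℤ, kerDim A = z,
      ∀ (G : Type) [Group G], C G → ∀ (m n : ℕ) (T : Finset G),
        {r : ℝ | ∃ A : Matrix (Fin m) (Fin n) (G →₀ ℂ),
          (∀ i j, (A i j).support ⊆ T) ∧ kerDim A = r}.Finite,
      ∀ (G : Type) [Group G], C G → ∀ (m n : ℕ) (A B : Matrix (Fin m) (Fin n) (G →₀ ℂ)),
        {r : ℝ | ∃ z : ℂ, kerDim (A + z • B) = r}.Finite,
      ∀ (G : Type) [Group G], C G → ∀ (m n : ℕ) (A B : Matrix (Fin m) (Fin n) (G →₀ ℤ)),
        ¬ StrictAnti (fun k : ℕ => kerDim (complexify (A + k • B))),
      ∀ (G : Type) [Group G], C G → ∀ (m n : ℕ) (A B : Matrix (Fin m) (Fin n) (G →₀ ℤ))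
        (c β α : ℝ), 0 < β → 0 < α → α < 1 →
          ¬ ∀ k : ℕ, kerDim (complexify (A + k • B)) = c + β * α ^ k] := by
  classical
  refine ⟨closedClass_torsionFree, fun C hC => ?_⟩
  · tfae_have 1 → 2 := by
      intro h G _ hG m n A
      refine Q23.FV.int_all (cl hC) ?_ G hG A
      intro H _ hH v hv
      obtain ⟨a, b, X, hX, hXv⟩ := W656.VA.exists_kerDim hv
      rw [← hXv]
      refine h H hH a b X fun i j g => ?_
      obtain ⟨k, hk⟩ := Subring.mem_bot.1 (hX i j g)
      exact ⟨k, by rw [← hk]; simp⟩
    tfae_have 2 → 3 := by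
      intro h G _ hG m n T
      refine Set.Finite.subset ((Set.finite_Icc (0 : ℤ) m).image (fun z : ℤ => (z : ℝ))) ?_
      rintro r ⟨A, _, rfl⟩
      obtain ⟨z, hz⟩ := h G hG m n A
      obtain ⟨b1, b2⟩ := Q23.FV.kerDim_bounds A
      change (0 : ℝ) ≤ kerDim A at b1
      change kerDim A ≤ (m : ℝ) at b2
      rw [hz] at b1 b2
      exact ⟨z, ⟨by exact_mod_cast b1, by exact_mod_cast b2⟩, hz.symm⟩
    tfae_have 3 → 4 := by
      intro h G _ hG m n A B
      refine (h G hG m n (Finset.univ.biUnion fun i => Finset.univ.biUnion fun j =>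
        (A i j).support ∪ (B i j).support)).subset ?_
      rintro r ⟨z, rfl⟩
      refine ⟨A + z • B, fun i j x hx => ?_, rfl⟩
      rw [Finset.mem_biUnion]
      refine ⟨i, Finset.mem_univ i, ?_⟩
      rw [Finset.mem_biUnion]
      refine ⟨j, Finset.mem_univ j, ?_⟩
      rw [Finset.mem_union]
      by_contra hno
      push Not at hno
      rw [Finsupp.mem_support_iff] at hx
      apply hx
      show (A i j) x + z • (B i j) x = 0
      rw [Finsupp.notMem_support_iff.1 hno.1, Finsupp.notMem_support_iff.1 hno.2, smul_zero,
        add_zero]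
    tfae_have 4 → 5 := by
      intro h G _ hG m n A B hanti
      have h1 := h G hG m n (complexify A) (complexify B)
      have h2 : ∀ k : ℕ, complexify (A + k • B) = complexify A + (k : ℂ) • complexify B := by
        intro k
        funext i j
        ext x
        show (((A i j + k • B i j) x : ℤ) : ℂ) = ((A i j x : ℤ) : ℂ) + (k : ℂ) • ((B i j x : ℤ) : ℂ)
        rw [Finsupp.add_apply, Finsupp.smul_apply, nsmul_eq_mul, smul_eq_mul]
        push_cast
        rfl
      refine Set.infinite_of_injective_forall_mem (f := fun k : ℕ => kerDim (complexify (A + k • B)))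
        hanti.injective ?_ h1
      intro k
      exact ⟨k, by rw [h2]⟩
    tfae_have 5 → 6 := by
      intro h G _ hG m n A B c β α hβ hα hα1 hk
      refine h G hG m n A B ?_
      intro k l hkl
      show kerDim _ < kerDim _
      rw [hk, hk]
      have := pow_lt_pow_right_of_lt_one₀ hα hα1 hkl
      nlinarith
    tfae_have 6 → 1 := by
      intro h
      have key : ∀ (G : Type) [Group G], C G → ∀ v : ℝ, W656.VA.Val (⊥ : Subring ℂ) G v →
          ∃ z : ℤ, v = z := by
        intro G _ hG v hv
        by_contra hz
        obtain ⟨H, _, hH, m, n, A, B, c, β, α, hβ, hα, hα1, hk⟩ := Q23.FV.main (cl hC) hG hv hz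
        exact h H hH m n A B c β α hβ hα hα1 hk
      intro G _ hG m n A _
      exact Q23.FV.int_all (cl hC) key G hG A
    tfae_finish

end Pool.Agent.Results.MP_95030e_al.ChainConditions
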