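import Pool.Agent.Q162.LG.At

set_option autoImplicit false

/-!
# The Atiyah conjecture for torsion-free groups and spectral gaps

An integer matrix over a torsion-free group whose norm is at most `3 / √2 + 2 ^ -(16 K + 31)` and whose
spectrum has a gap `(0, 1 / K)` at zero has an integral kernel dimension, and so has every complex matrix
with the same support.
-/

noncomputable section

namespace Pool.Agent.Results.MP_95030e_al.GapIntegrality

open TH57.Thr

/-- The kernel of right multiplication by the matrix `A` on `ℓ²(G)^m`. -/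
def kernel {G : Type} [Group G] {m n : ℕ} (A : Matrix (Fin m) (Fin n) (G →₀ ℂ)) :
    Set (lp (fun _ : Fin m × G => ℂ) 2) :=
  {x | ∀ (j : Fin n) (g : G),
    ∑ i : Fin m, (A i j).sum (fun h c => x (i, g * h⁻¹) * c) = 0}

open Classical in
/-- The von Neumann dimension of this kernel: the sum over `i` of one minus the squared distance
from the basis vector at `(i, 1)` to the kernel, that is, the trace of the projection onto the
kernel. -/
def kerDim {G : Type} [Group G] {m n : ℕ} (A : Matrix (Fin m) (Fin n) (G →₀ ℂ)) : ℝ :=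
  ∑ i : Fin m, (1 - (Metric.infDist
    (lp.single 2 (i, (1 : G)) (1 : ℂ) : lp (fun _ : Fin m × G => ℂ) 2) (kernel A)) ^ 2)

/-- An integer matrix as a complex matrix. -/
def complex {G : Type} [Group G] {m n : ℕ} (N : Matrix (Fin m) (Fin n) (MonoidAlgebra ℤ G)) :
    Matrix (Fin m) (Fin n) (G →₀ ℂ) :=
  fun i j => (N i j).coeff.mapRange (fun z : ℤ => (z : ℂ)) Int.cast_zero

/-- `G` is torsion-free. -/
def TorsionFree (G : Type) [Group G] : Prop := ∀ g : G, ∀ n : ℕ, 0 < n → g ^ n = 1 → g = 1

/-- **Spectral gap at zero.** Every finitely supported real row vector `x` is within distance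
`√(D |x N|²)` of the kernel of `N` on `ℓ²`, approximated by finitely supported vectors `x'`; that is, the
spectrum of `N N*` is contained in `{0} ∪ [1 / D, ∞)`. Here `normSq` is the squared `ℓ²`-norm and
`x ᵥ* toReal N` is the row vector `x N`. -/
def Gapped {G : Type} [Group G] {m n : ℕ} (N : Matrix (Fin m) (Fin n) (MonoidAlgebra ℤ G))
    (D : ℝ) : Prop :=
  ∀ (x : Fin m → MonoidAlgebra ℝ G) (ε : ℝ), 0 < ε → ∃ x' : Fin m → MonoidAlgebra ℝ G,
    normSq (Matrix.vecMul x' (toReal N)) ≤ ε ∧
      normSq (x - x') ≤ D * normSq (Matrix.vecMul x (toReal N)) + ε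

/-- `N` has a generalised inverse `Y` over the integral group ring of norm at most `K`, for example
an inverse, or a left or right inverse. -/
def GenInverse {G : Type} [Group G] {m n : ℕ} (N : Matrix (Fin m) (Fin n) (MonoidAlgebra ℤ G))
    (K : ℝ) : Prop :=
  ∃ Y : Matrix (Fin n) (Fin m) (MonoidAlgebra ℤ G), N * Y * N = N ∧ NormLE Y K

/-- Let `G` be torsion-free, let `N` be an integer matrix, `K` a natural number. Assume that `N` has
spectral gap `1 / K²` (for `N N*`) or a generalised inverse of norm at most `K`, and that the norm of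
`N` is at most `3 / √2 + 2 ^ -(16 K + 31)`. Then the kernel dimension of every complex matrix `A` which
is supported in the support of `N`, for example `A = N`, is an integer. (`NormLE N c`, from
`Pool.Agent.TH57.Thr.Defs`: right multiplication by `N` on `ℓ²` has norm at most `|c|`.) -/
theorem result (G : Type) [Group G] (hG : TorsionFree G) (m n K : ℕ)
    (N : Matrix (Fin m) (Fin n) (MonoidAlgebra ℤ G))
    (hK : Gapped N ((K : ℝ) ^ 2) ∨ GenInverse N K)
    (hN : NormLE N (3 / Real.sqrt 2 + (1 / 2) ^ (16 * K + 31)))
    (A : Matrix (Fin m) (Fin n) (G →₀ ℂ)) (hA : ∀ i j g, A i j g ≠ 0 → (N i j).coeff g ≠ 0) :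
    ∃ z : ℤ, kerDim A = z :=
  Pool.Agent.Q162.LG.gap_law hG K N hK hN A hA

end Pool.Agent.Results.MP_95030e_al.GapIntegrality
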