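import Pool.Agent.Q23.JS.J2

set_option autoImplicit false

noncomputable section

namespace Pool.Agent.Results.MP_95030e_al.JumpingSets

/-- The kernel of right multiplication by the matrix `A` on `ℓ²(G)^m`. -/
def kernel {G : Type} [Group G] {m n : ℕ} (A : Matrix (Fin m) (Fin n) (G →₀ ℂ)) :
    Set (lp (fun _ : Fin m × G => ℂ) 2) :=
  {x | ∀ (j : Fin n) (g : G),
    ∑ i : Fin m, (A i j).sum (fun h c => x (i, g * h⁻¹) * c) = 0}

open Classical in
/-- The von Neumann dimension of this kernel: the sum over `i` of one minus the squared distance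
from the basis vector at `(i, 1)` to the kernel, that is, the trace of the projection onto the
kernel. -/
def kerDim {G : Type} [Group G] {m n : ℕ} (A : Matrix (Fin m) (Fin n) (G →₀ ℂ)) : ℝ :=
  ∑ i : Fin m, (1 - (Metric.infDist
    (lp.single 2 (i, (1 : G)) (1 : ℂ) : lp (fun _ : Fin m × G => ℂ) 2) (kernel A)) ^ 2)

/-- The integral matrix `A` as a complex matrix. -/
def complexify {G : Type} {m n : ℕ} (A : Matrix (Fin m) (Fin n) (G →₀ ℤ)) :
    Matrix (Fin m) (Fin n) (G →₀ ℂ) :=
  fun i j => (A i j).mapRange (fun c : ℤ => (c : ℂ)) Int.cast_zero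

/-- The jumping set of the pencil `A + z B`: all complex numbers `z` for which the kernel dimension
of `A + z B` is larger than that of another member of the pencil. -/
def jumps {G : Type} [Group G] {m n : ℕ} (A B : Matrix (Fin m) (Fin n) (G →₀ ℂ)) : Set ℂ :=
  {z | ∃ w : ℂ, kerDim (A + w • B) < kerDim (A + z • B)}

/-- `G` is torsion-free. -/
def TorsionFree (G : Type) [Group G] : Prop := ∀ g : G, ∀ n : ℕ, 0 < n → g ^ n = 1 → g = 1

/-- `C` is a class of groups which is closed under subgroups and isomorphisms (injective
homomorphisms into a member), direct products of arbitrary families, semidirect products with `ℤ`,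
and free products with free groups of finite rank. -/
structure ClosedClass (C : (G : Type) → [Group G] → Prop) : Prop where
  subgroup : ∀ (G H : Type) [Group G] [Group H] (f : G →* H), Function.Injective f → C H → C G
  product : ∀ (I : Type) (G : I → Type) [∀ i, Group (G i)], (∀ i, C (G i)) → C (∀ i, G i)
  semidirect : ∀ (G : Type) [Group G] (s : MulAut G), C G →
    C (G ⋊[zpowersHom (MulAut G) s] Multiplicative ℤ)
  freeProduct : ∀ (G : Type) [Group G] (m : ℕ), C G → C (Monoid.Coprod G (FreeGroup (Fin m)))

open Pool.Agent Pool.Agent.TH25.AD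

theorem cl {C : (G : Type) → [Group G] → Prop} (h : ClosedClass C) : Q23.FV.Cl C :=
  ⟨h.subgroup, h.product, h.semidirect, h.freeProduct⟩

theorem tf_of_isLcm {G : Type} [Group G] (h : W656.VA.IsLcm G 1) : TorsionFree G := by
  intro g n hn hg
  have h1 : IsOfFinOrder g := isOfFinOrder_iff_pow_eq_one.2 ⟨n, hn, hg⟩
  have h2 : Finite (Subgroup.zpowers g) := (finite_zpowers.2 h1).to_subtype
  have h3 := h.2.1 (Subgroup.zpowers g) h2
  rw [Nat.card_zpowers, Nat.dvd_one, orderOf_eq_one_iff] at h3
  exact h3

/-- The torsion-free groups form such a class. -/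
theorem closedClass_torsionFree : ClosedClass (fun (G : Type) [Group G] => TorsionFree G) := by
  refine ⟨?_, ?_, ?_, ?_⟩
  · intro G H _ _ f hf hH g n hn hg
    apply hf
    rw [map_one]
    refine hH _ n hn ?_
    rw [← map_pow, hg, map_one]
  · intro I G _ h g n hn hg
    funext i
    exact h i _ n hn (congrFun hg i)
  · intro G _ s hG g n hn hg
    have h1 : g.right = 1 := by
      refine tf_int _ n hn ?_
      have := congrArg SemidirectProduct.rightHom hg
      rw [map_pow, map_one] at this
      exact this
    have h2 : g = SemidirectProduct.inl g.left := by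
      apply SemidirectProduct.ext
      · rfl
      · rw [h1]
        rfl
    rw [h2, ← map_pow] at hg
    have h3 : g.left ^ n = 1 := by
      apply SemidirectProduct.inl_injective (φ := zpowersHom (MulAut G) s)
      rw [hg, map_one]
    rw [h2, hG _ n hn h3, map_one]
  · intro G _ m hG
    show TorsionFree (Monoid.Coprod G (FreeGroup (Fin m)))
    exact tf_of_isLcm (W656.VA.IsLcm.coprod (G := G) (W656.VA.isLcm_one hG) m)

theorem infinite_nat : (Set.range (fun k : ℕ => (k : ℂ))).Infinite :=
  Set.infinite_range_of_injective Nat.cast_injective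

/-- **Jumping sets of pencils.** Let `C` be a class of groups which is closed under subgroups,
direct products, semidirect products with `ℤ` and free products with free groups of finite rank, for
example the class of all torsion-free groups. The following are equivalent.

1. The Atiyah conjecture: the kernel dimensions of all matrices over `ℚ[G]`, `G` in `C`, are integers.
2. For every group `G` in `C` the jumping set of a pencil `A + z B` of complex `m × n` matrices over
   `ℂ[G]` has at most `m` elements.
3. For every group `G` in `C` the jumping set of every pencil `A + z B`, `A` and `B` matrices over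
   `ℤ[G]`, is finite.
4. There is a set `S` of natural numbers which is not the jumping set of any pencil `A + z B`, `A` and
   `B` matrices over `ℤ[G]`, for any finitely generated group `G` in `C`.
5. For every group `G` in `C` there is a set `S` of natural numbers which is not the jumping set of
   any pencil `A + z B`, `A` and `B` matrices over `ℤ[G]`.

So if the Atiyah conjecture fails for one group of `C`, then every set of natural numbers is the
jumping set of an integral pencil over a finitely generated group in `C`, and one group in `C` is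
enough for all these sets. -/
theorem result :
    ClosedClass (fun (G : Type) [Group G] => TorsionFree G) ∧
    ∀ C : (G : Type) → [Group G] → Prop, ClosedClass C → List.TFAE [
      ∀ (G : Type) [Group G], C G → ∀ (m n : ℕ) (A : Matrix (Fin m) (Fin n) (G →₀ ℂ)),
        (∀ i j g, ∃ q : ℚ, A i j g = q) → ∃ z : ℤ, kerDim A = z,
      ∀ (G : Type) [Group G], C G → ∀ (m n : ℕ) (A B : Matrix (Fin m) (Fin n) (G →₀ ℂ)),
        (jumps A B).encard ≤ m,
      ∀ (G : Type) [Group G], C G → ∀ (m n : ℕ) (A B : Matrix (Fin m) (Fin n) (G →₀ ℤ)),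
        (jumps (complexify A) (complexify B)).Finite,
      ∃ S : Set ℕ, ∀ (G : Type) [Group G], C G → Group.FG G →
        ∀ (m n : ℕ) (A B : Matrix (Fin m) (Fin n) (G →₀ ℤ)),
          jumps (complexify A) (complexify B) ≠ (fun k : ℕ => (k : ℂ)) '' S,
      ∀ (G : Type) [Group G], C G → ∃ S : Set ℕ,
        ∀ (m n : ℕ) (A B : Matrix (Fin m) (Fin n) (G →₀ ℤ)),
          jumps (complexify A) (complexify B) ≠ (fun k : ℕ => (k : ℂ)) '' S] := by
  classical
  refine ⟨closedClass_torsionFree, fun C hC => ?_⟩
  have back : ∀ P : Prop, (∀ (H : Type) [Group H], C H → ∀ β α : ℝ, 0 < β → 0 < α →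
      (∀ S : Set ℕ, Q23.JS.Pen (⊥ : Subring ℂ) H S β α) → P) →
      (P → False) → ∀ (G : Type) [Group G], C G → ∀ (m n : ℕ)
        (A : Matrix (Fin m) (Fin n) (G →₀ ℂ)), ∃ z : ℤ, kerDim A = z := by
    intro P hP hP' G _ hG m n A
    have key : ∀ (G : Type) [Group G], C G → ∀ v : ℝ, W656.VA.Val (⊥ : Subring ℂ) G v →
        ∃ z : ℤ, v = z := by
      intro G _ hG v hv
      by_contra hz
      obtain ⟨H, _, hH, β, α, hβ, hα, _, hk⟩ := Q23.JS.main_S (cl hC) hG hv hz
      exact hP' (hP H hH β α hβ hα hk)
    exact Q23.FV.int_all (cl hC) key G hG A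
  tfae_have 1 → 2 := by
    intro h G _ hG m n A B
    have hint : ∀ X : Matrix (Fin m) (Fin n) (G →₀ ℂ), ∃ z : ℤ, kerDim X = z := by
      intro X
      refine Q23.FV.int_all (cl hC) ?_ G hG X
      intro H _ hH v hv
      obtain ⟨a, b, X, hX, hXv⟩ := W656.VA.exists_kerDim hv
      rw [← hXv]
      refine h H hH a b X fun i j g => ?_
      obtain ⟨k, hk⟩ := Subring.mem_bot.1 (hX i j g)
      exact ⟨k, by rw [← hk]; simp⟩
    by_contra hlt
    push Not at hlt
    have h1 : ((m + 1 : ℕ) : ℕ∞) ≤ (jumps A B).encard := by
      push_cast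
      exact Order.add_one_le_of_lt hlt
    obtain ⟨t, ht, hcard⟩ := Set.exists_subset_encard_eq h1
    have htf : t.Finite := Set.finite_of_encard_eq_coe hcard
    have h2 := Q23.JS.jumps_le A B (fun z => hint (A + z • B)) htf.toFinset
      (fun z hz => ht (htf.mem_toFinset.1 hz))
    rw [htf.encard_eq_coe_toFinset_card] at hcard
    have h3 : htf.toFinset.card = m + 1 := by exact_mod_cast hcard
    omega
  tfae_have 2 → 3 := by
    intro h G _ hG m n A B
    exact Set.finite_of_encard_le_coe (h G hG m n (complexify A) (complexify B))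
  tfae_have 3 → 4 := by
    intro h
    refine ⟨Set.univ, fun G _ hG _ m n A B hAB => ?_⟩
    have h1 := h G hG m n A B
    rw [hAB, Set.image_univ] at h1
    exact infinite_nat h1
  tfae_have 3 → 5 := by
    intro h G _ hG
    refine ⟨Set.univ, fun m n A B hAB => ?_⟩
    have h1 := h G hG m n A B
    rw [hAB, Set.image_univ] at h1
    exact infinite_nat h1
  tfae_have 4 → 1 := by
    rintro ⟨S, h⟩ G _ hG m n A _
    refine back _ ?_ id G hG m n A
    intro H _ hH β α hβ hα hk
    obtain ⟨K, hK, hPen⟩ := (hk S).fg
    obtain ⟨a, b, X, Y, hXY⟩ := hPen.jumps hβ hα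
    exact h K (hC.subgroup K H K.subtype K.subtype_injective hH) hK a b X Y hXY
  tfae_have 5 → 1 := by
    intro h G _ hG m n A _
    refine back _ ?_ id G hG m n A
    intro H _ hH β α hβ hα hk
    obtain ⟨S, hS⟩ := h H hH
    obtain ⟨a, b, X, Y, hXY⟩ := (hk S).jumps hβ hα
    exact hS a b X Y hXY
  tfae_finish

end Pool.Agent.Results.MP_95030e_al.JumpingSets
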